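import Mathlib

/-!
# Subgaussian and quasi-independent sets of characters of `(ℤ/nℤ)^ℕ`: definitions
-/

set_option autoImplicit false

namespace Pool.Agent.L7h52.Sidon

open MeasureTheory

/-- `∑ k, t k * l k`, an element of `ℤ/nℤ`. -/
def pair {n : ℕ} (l : ℕ →₀ ZMod n) (t : ℕ → ZMod n) : ZMod n := l.sum fun k a => t k * a

/-- The character `t ↦ exp (2 π i ∑ k, t k * l k / n)` of `(ℤ/nℤ)^ℕ` attached to the finitely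
supported sequence `l`. -/
noncomputable def char {n : ℕ} (l : ℕ →₀ ZMod n) (t : ℕ → ZMod n) : ℂ :=
  Complex.exp (2 * Real.pi * Complex.I * ((pair l t).val : ℂ) / n)

/-- The normalised Haar measure of the compact group `(ℤ/nℤ)^ℕ`. -/
noncomputable def haar (n : ℕ) [NeZero n] : Measure (ℕ → ZMod n) :=
  Measure.addHaarMeasure (⊤ : TopologicalSpace.PositiveCompacts (ℕ → ZMod n))

/-- `‖f‖_{ψ₂} = inf {c > 0 : ∫ exp (|f|² / c²) ≤ e}`. -/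
noncomputable def psi2 {n : ℕ} [NeZero n] (f : (ℕ → ZMod n) → ℂ) : ℝ :=
  sInf {c : ℝ | 0 < c ∧ ∫⁻ t, ENNReal.ofReal (Real.exp (‖f t‖ ^ 2 / c ^ 2)) ∂(haar n) ≤
    ENNReal.ofReal (Real.exp 1)}

/-- `Λ` is subgaussian: `‖∑ a_l γ_l‖_{ψ₂} ≤ C (∑ |a_l|²)^{1/2}` for all finite sums over `Λ`. -/
def Subgaussian {n : ℕ} [NeZero n] (Λ : Set (ℕ →₀ ZMod n)) : Prop :=
  ∃ C : ℝ, ∀ (s : Finset (ℕ →₀ ZMod n)) (a : (ℕ →₀ ZMod n) → ℂ), (s : Set (ℕ →₀ ZMod n)) ⊆ Λ →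
    psi2 (fun t => ∑ l ∈ s, a l * char l t) ≤ C * Real.sqrt (∑ l ∈ s, ‖a l‖ ^ 2)

/-- `Λ` is quasi-independent: there is no nontrivial relation with coefficients in `{-1,0,1}`
between distinct elements of `Λ`. -/
def QuasiIndependent {n : ℕ} (Λ : Set (ℕ →₀ ZMod n)) : Prop :=
  ∀ (s : Finset (ℕ →₀ ZMod n)) (ξ : (ℕ →₀ ZMod n) → ℤ), (s : Set (ℕ →₀ ZMod n)) ⊆ Λ →
    (∀ l ∈ s, ξ l = -1 ∨ ξ l = 0 ∨ ξ l = 1) → ∑ l ∈ s, ξ l • l = 0 → ∀ l ∈ s, ξ l = 0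

end Pool.Agent.L7h52.Sidon
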