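import Mathlib
import Pool.Agent.L7h52.Sidon.Defs

/-!
# Characters of `(ℤ/nℤ)^ℕ`: basic facts
-/

set_option autoImplicit false
set_option linter.unusedSectionVars false

namespace Pool.Agent.L7h52.Sidon

open MeasureTheory Finset

variable {n : ℕ} [NeZero n]

theorem char_eq (l : ℕ →₀ ZMod n) (t : ℕ → ZMod n) : char l t = ZMod.stdAddChar (pair l t) := by
  rw [ZMod.stdAddChar_apply, ZMod.toCircle_apply]
  rfl

theorem pair_add_left (l m : ℕ →₀ ZMod n) (t : ℕ → ZMod n) :
    pair (l + m) t = pair l t + pair m t := by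
  unfold pair
  rw [Finsupp.sum_add_index']
  · intro; exact mul_zero _
  · intro _ _ _; exact mul_add _ _ _

theorem pair_zero_left (t : ℕ → ZMod n) : pair (0 : ℕ →₀ ZMod n) t = 0 := Finsupp.sum_zero_index

/-- `pair` as an additive map in the first variable. -/
def pairHom (t : ℕ → ZMod n) : (ℕ →₀ ZMod n) →+ ZMod n where
  toFun l := pair l t
  map_zero' := pair_zero_left t
  map_add' l m := pair_add_left l m t

theorem pair_add_right (l : ℕ →₀ ZMod n) (s t : ℕ → ZMod n) :
    pair l (s + t) = pair l s + pair l t := by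
  unfold pair Finsupp.sum
  rw [← Finset.sum_add_distrib]
  exact Finset.sum_congr rfl fun k _ => add_mul _ _ _

theorem pair_single (l : ℕ →₀ ZMod n) (k : ℕ) : pair l (Pi.single k 1) = l k := by
  classical
  unfold pair
  by_cases hk : k ∈ l.support
  · rw [Finsupp.sum, Finset.sum_eq_single k]
    · rw [Pi.single_eq_same, one_mul]
    · intro j _ hj
      rw [Pi.single_eq_of_ne hj, zero_mul]
    · intro h
      exact absurd hk h
  · rw [Finsupp.sum, Finset.sum_eq_zero, Finsupp.notMem_support_iff.1 hk]
    intro j hj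
    have : j ≠ k := fun h => hk (h ▸ hj)
    rw [Pi.single_eq_of_ne this, zero_mul]

theorem continuous_pair (l : ℕ →₀ ZMod n) : Continuous (pair l : (ℕ → ZMod n) → ZMod n) := by
  unfold pair Finsupp.sum
  refine continuous_finsetSum _ fun k _ => ?_
  exact (continuous_of_discreteTopology (f := fun x : ZMod n => x * l k)).comp (continuous_apply k)

theorem continuous_char (l : ℕ →₀ ZMod n) : Continuous (char l : (ℕ → ZMod n) → ℂ) := by
  have h : (char l : (ℕ → ZMod n) → ℂ) = fun t => ZMod.stdAddChar (pair l t) :=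
    funext fun t => char_eq l t
  rw [h]
  exact (continuous_of_discreteTopology (f := fun x : ZMod n => (ZMod.stdAddChar x : ℂ))).comp
    (continuous_pair l)

theorem char_add (l m : ℕ →₀ ZMod n) (t : ℕ → ZMod n) :
    char (l + m) t = char l t * char m t := by
  rw [char_eq, char_eq, char_eq, pair_add_left, AddChar.map_add_eq_mul]

theorem char_zero (t : ℕ → ZMod n) : char (0 : ℕ →₀ ZMod n) t = 1 := by
  rw [char_eq, pair_zero_left, AddChar.map_zero_eq_one]

theorem char_add_right (l : ℕ →₀ ZMod n) (s t : ℕ → ZMod n) :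
    char l (s + t) = char l s * char l t := by
  rw [char_eq, char_eq, char_eq, pair_add_right, AddChar.map_add_eq_mul]

theorem norm_char (l : ℕ →₀ ZMod n) (t : ℕ → ZMod n) : ‖char l t‖ = 1 := by
  rw [char_eq, ZMod.stdAddChar_apply]
  exact Circle.norm_coe _

theorem char_neg (l : ℕ →₀ ZMod n) (t : ℕ → ZMod n) :
    char (-l) t = (starRingEnd ℂ) (char l t) := by
  have h1 : char (-l) t * char l t = 1 := by
    rw [← char_add, neg_add_cancel, char_zero]
  have h2 : (starRingEnd ℂ) (char l t) * char l t = 1 := by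
    rw [mul_comm, Complex.mul_conj, Complex.normSq_eq_norm_sq, norm_char]
    norm_num
  have h3 : char l t ≠ 0 := by
    intro h
    rw [h, mul_zero] at h1
    exact zero_ne_one h1
  exact mul_right_cancel₀ h3 (h1.trans h2.symm)

theorem char_sum {ι : Type} (s : Finset ι) (f : ι → ℕ →₀ ZMod n) (t : ℕ → ZMod n) :
    char (∑ i ∈ s, f i) t = ∏ i ∈ s, char (f i) t := by
  classical
  induction s using Finset.induction_on with
  | empty => rw [Finset.sum_empty, Finset.prod_empty, char_zero]
  | insert i s hi ih => rw [Finset.sum_insert hi, Finset.prod_insert hi, char_add, ih]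

theorem char_ne_one {l : ℕ →₀ ZMod n} (hl : l ≠ 0) : ∃ t : ℕ → ZMod n, char l t ≠ 1 := by
  obtain ⟨k, hk⟩ := Finsupp.ne_iff.1 hl
  refine ⟨Pi.single k 1, fun h => hk ?_⟩
  rw [char_eq, pair_single, ← AddChar.map_zero_eq_one (ZMod.stdAddChar (N := n))] at h
  exact ZMod.injective_stdAddChar h

instance : (haar n).IsAddLeftInvariant := by unfold haar; infer_instance

instance : IsProbabilityMeasure (haar n) := by
  constructor
  have := Measure.addHaarMeasure_self (K₀ := (⊤ : TopologicalSpace.PositiveCompacts (ℕ → ZMod n)))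
  rwa [TopologicalSpace.PositiveCompacts.coe_top] at this

theorem cont_integrable {E : Type} [NormedAddCommGroup E] [SecondCountableTopology E]
    {f : (ℕ → ZMod n) → E} (hf : Continuous f) : Integrable f (haar n) :=
  hf.integrable_of_hasCompactSupport (HasCompactSupport.of_compactSpace f)

theorem integral_char_zero : ∫ t, char (0 : ℕ →₀ ZMod n) t ∂(haar n) = 1 := by
  simp only [char_zero]
  simp

theorem integral_char_ne {l : ℕ →₀ ZMod n} (hl : l ≠ 0) : ∫ t, char l t ∂(haar n) = 0 := by
  obtain ⟨s, hs⟩ := char_ne_one hl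
  have h1 : ∫ t, char l (s + t) ∂(haar n) = ∫ t, char l t ∂(haar n) :=
    integral_add_left_eq_self _ _
  simp only [char_add_right] at h1
  rw [integral_const_mul] at h1
  have h2 : (char l s - 1) * ∫ t, char l t ∂(haar n) = 0 := by
    rw [sub_mul, h1, one_mul, sub_self]
  rcases mul_eq_zero.1 h2 with h | h
  · exact absurd (sub_eq_zero.1 h) hs
  · exact h

/-- The annihilator of `E` has measure at least `n ^ (-|E|)`. -/
theorem annihilator_measure (E : Finset (ℕ →₀ ZMod n)) :
    1 ≤ (n : ENNReal) ^ E.card * haar n {t | ∀ e ∈ E, pair e t = 0} := by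
  classical
  let φ : (ℕ → ZMod n) → (E → ZMod n) := fun t e => pair e.1 t
  have hfib : ∀ v : E → ZMod n, haar n (φ ⁻¹' {v}) ≤ haar n {t | ∀ e ∈ E, pair e t = 0} := by
    intro v
    by_cases hv : ∃ s, φ s = v
    · obtain ⟨s, hs⟩ := hv
      have h1 : φ ⁻¹' {v} = (fun t => -s + t) ⁻¹' {t | ∀ e ∈ E, pair e t = 0} := by
        ext t
        simp only [Set.mem_preimage, Set.mem_singleton_iff, Set.mem_ofPred_eq]
        constructor
        · intro ht e he
          have h2 := congrFun (ht.trans hs.symm) ⟨e, he⟩
          have h3 : pair e (s + (-s + t)) = pair e s + pair e (-s + t) := pair_add_right _ _ _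
          rw [add_neg_cancel_left] at h3
          simp only [φ] at h2
          rw [h2] at h3
          exact left_eq_add.1 h3
        · intro ht
          rw [← hs]
          ext e
          have h3 : pair e.1 (s + (-s + t)) = pair e.1 s + pair e.1 (-s + t) :=
            pair_add_right _ _ _
          rw [add_neg_cancel_left, ht e.1 e.2, add_zero] at h3
          simp only [φ]
          rw [h3]
      rw [h1, measure_preimage_add]
    · have h1 : φ ⁻¹' {v} = ∅ := by
        ext t
        simp only [Set.mem_preimage, Set.mem_singleton_iff, Set.mem_empty_iff_false, iff_false]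
        exact fun h => hv ⟨t, h⟩
      rw [h1, measure_empty]
      exact bot_le
  have huniv : (Set.univ : Set (ℕ → ZMod n)) = ⋃ v ∈ (Finset.univ : Finset (E → ZMod n)),
      φ ⁻¹' {v} := by
    ext t
    simp
  calc (1 : ENNReal) = haar n Set.univ := measure_univ.symm
    _ ≤ ∑ v : E → ZMod n, haar n (φ ⁻¹' {v}) := by
      conv_lhs => rw [huniv]
      exact measure_biUnion_finset_le _ _
    _ ≤ ∑ _v : E → ZMod n, haar n {t | ∀ e ∈ E, pair e t = 0} := Finset.sum_le_sum fun v _ => hfib v
    _ = _ := by
      rw [Finset.sum_const, Finset.card_univ, nsmul_eq_mul]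
      congr 1
      simp [ZMod.card]

end Pool.Agent.L7h52.Sidon
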