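import Mathlib
import Pool.Agent.R31.Partition

/-!
# Colouring a finite subset of an abelian group of bounded exponent by quasi-independent sets

`Rel ξ`: the finitely supported function `ξ` has values in `{-1,0,1}` and `∑ ξ x • x = 0`.
`Red k A D`: `D ⊆ A` and `A \ D` is partitioned into `k` classes such that every relation supported
on the union of `D` and one class is supported on `D`.
-/

set_option autoImplicit false
set_option linter.unusedSectionVars false
set_option linter.style.haveILetI false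

namespace Pool.Agent.L7h52.Sidon

open Finset Module

section rank

variable {K V ι : Type} [Field K] [AddCommGroup V] [Module K V] [DecidableEq ι]

/-- Rank of a finite family of vectors. -/
noncomputable def rk (K : Type) {V ι : Type} [Field K] [AddCommGroup V] [Module K V] (a : ι → V)
    (X : Finset ι) : ℕ := finrank K (Submodule.span K (a '' (X : Set ι)))

instance fd (a : ι → V) (X : Finset ι) :
    FiniteDimensional K (Submodule.span K (a '' (X : Set ι))) :=
  FiniteDimensional.span_of_finite K ((X.finite_toSet).image a)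

theorem rk_isRank (a : ι → V) : Pool.Agent.R31.Partition.IsRank (rk K a) where
  mono A B h := Submodule.finrank_mono (Submodule.span_mono (Set.image_mono (by exact_mod_cast h)))
  submod A B := by
    unfold rk
    have h1 : Submodule.span K (a '' ((A ∪ B : Finset ι) : Set ι)) =
        Submodule.span K (a '' (A : Set ι)) ⊔ Submodule.span K (a '' (B : Set ι)) := by
      rw [Finset.coe_union, Set.image_union, Submodule.span_union]
    have h2 : Submodule.span K (a '' ((A ∩ B : Finset ι) : Set ι)) ≤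
        Submodule.span K (a '' (A : Set ι)) ⊓ Submodule.span K (a '' (B : Set ι)) := by
      apply le_inf
      · exact Submodule.span_mono (Set.image_mono (by exact_mod_cast Finset.inter_subset_left))
      · exact Submodule.span_mono (Set.image_mono (by exact_mod_cast Finset.inter_subset_right))
    rw [h1, ← Submodule.finrank_sup_add_finrank_inf_eq (Submodule.span K (a '' (A : Set ι)))
      (Submodule.span K (a '' (B : Set ι)))]
    have := Submodule.finrank_mono h2
    omega
  unit A x := by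
    unfold rk
    have h1 : Submodule.span K (a '' ((insert x A : Finset ι) : Set ι)) =
        Submodule.span K {a x} ⊔ Submodule.span K (a '' (A : Set ι)) := by
      rw [Finset.coe_insert, Set.image_insert_eq, Submodule.span_insert]
    rw [h1]
    have h2 := Submodule.finrank_add_le_finrank_add_finrank (Submodule.span K {a x})
      (Submodule.span K (a '' (A : Set ι)))
    have h3 := finrank_span_le_card (R := K) ({a x} : Set V)
    simp only [Set.toFinset_singleton, Finset.card_singleton] at h3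
    omega

theorem rk_empty (a : ι → V) : rk K a ∅ = 0 := by
  unfold rk
  rw [Finset.coe_empty, Set.image_empty, Submodule.span_empty, finrank_bot]

theorem rk_le_card (a : ι → V) (X : Finset ι) : rk K a X ≤ X.card := by
  induction X using Finset.induction_on with
  | empty => rw [rk_empty]; exact Nat.zero_le _
  | insert x X hx ih =>
    have := (rk_isRank (K := K) a).unit X x
    rw [Finset.card_insert_of_notMem hx]
    omega

theorem rk_add (a : ι → V) (X Y : Finset ι) : rk K a (X ∪ Y) ≤ rk K a X + Y.card := by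
  have h1 := (rk_isRank (K := K) a).submod X Y
  have h2 := rk_le_card (K := K) a Y
  omega

/-- Choice of a tight set and a partition of the rest. -/
theorem split (a : ι → V) {k : ℕ} (hk : 0 < k) (A : Finset ι) :
    ∃ B ⊆ A, k * rk K a B ≤ B.card ∧ ∃ c : ι → Fin k, ∀ i,
      rk K a (B ∪ (A \ B).filter (fun x => c x = i)) =
        rk K a B + ((A \ B).filter (fun x => c x = i)).card := by
  have : Nonempty (Fin k) := ⟨⟨0, hk⟩⟩
  obtain ⟨B, hB, hmax⟩ := Finset.exists_max_image A.powerset
    (fun B => (B.card : ℤ) - k * rk K a B) ⟨∅, Finset.empty_mem_powerset A⟩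
  rw [Finset.mem_powerset] at hB
  refine ⟨B, hB, ?_, ?_⟩
  · have := hmax ∅ (Finset.empty_mem_powerset A)
    rw [rk_empty, Finset.card_empty] at this
    push_cast at this
    have h2 : ((k * rk K a B : ℕ) : ℤ) ≤ (B.card : ℤ) := by push_cast; linarith
    exact_mod_cast h2
  · obtain ⟨f, hf⟩ := Pool.Agent.R31.Partition.partition (ι := Fin k) _ (A \ B)
      (fun _ X => rk K a (B ∪ X)) (fun _ => (rk_isRank a).contract B) rfl (by
        intro C hC
        have h1 := hmax (B ∪ C) (by
          rw [Finset.mem_powerset]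
          exact Finset.union_subset hB (hC.trans Finset.sdiff_subset))
        have h2 : (B ∪ C).card = B.card + C.card := by
          apply Finset.card_union_of_disjoint
          rw [Finset.disjoint_left]
          intro x hx hx'
          exact (Finset.mem_sdiff.1 (hC hx')).2 hx
        simp only [Finset.union_empty, Finset.sum_const, Finset.card_univ, Fintype.card_fin,
          smul_eq_mul]
        rw [h2] at h1
        push_cast at h1
        have h3 : ((k * rk K a B + C.card : ℕ) : ℤ) ≤ ((k * rk K a (B ∪ C) : ℕ) : ℤ) := by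
          push_cast; linarith
        exact_mod_cast h3)
    refine ⟨f, fun i => ?_⟩
    have := hf i
    simp only [Finset.union_empty] at this
    exact this

theorem mem_span_of_rel (a : ι → V) (X : Finset ι) (y : ι) (hy : y ∈ X) (ξ : ι → K)
    (h : ∑ x ∈ X, ξ x • a x = 0) (hξ : ξ y ≠ 0) :
    a y ∈ Submodule.span K (a '' ((X.erase y : Finset ι) : Set ι)) := by
  rw [← Finset.add_sum_erase X _ hy] at h
  have h1 : a y = -(ξ y)⁻¹ • ∑ x ∈ X.erase y, ξ x • a x := by
    have h2 : ξ y • a y = -∑ x ∈ X.erase y, ξ x • a x := eq_neg_of_add_eq_zero_left h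
    calc a y = (ξ y)⁻¹ • (ξ y • a y) := by rw [smul_smul, inv_mul_cancel₀ hξ, one_smul]
      _ = _ := by rw [h2, smul_neg, neg_smul]
  rw [h1]
  apply Submodule.smul_mem
  apply Submodule.sum_mem
  intro x hx
  exact Submodule.smul_mem _ _ (Submodule.subset_span ⟨x, hx, rfl⟩)

/-- If `Y` is independent over `B`, every linear relation on `B ∪ Y` vanishes on `Y`. -/
theorem rel_zero (a : ι → V) (B Y : Finset ι) (hBY : Disjoint B Y)
    (h : rk K a (B ∪ Y) = rk K a B + Y.card) (ξ : ι → K)
    (hξ : ∑ x ∈ B ∪ Y, ξ x • a x = 0) : ∀ y ∈ Y, ξ y = 0 := by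
  intro y hy
  by_contra hne
  have h1 := mem_span_of_rel a (B ∪ Y) y (Finset.mem_union_right _ hy) ξ hξ hne
  have h2 : Submodule.span K (a '' ((B ∪ Y : Finset ι) : Set ι)) ≤
      Submodule.span K (a '' (((B ∪ Y).erase y : Finset ι) : Set ι)) := by
    rw [Submodule.span_le]
    rintro _ ⟨x, hx, rfl⟩
    by_cases hxy : x = y
    · rw [hxy]; exact h1
    · exact Submodule.subset_span ⟨x, Finset.mem_coe.2 (Finset.mem_erase.2 ⟨hxy, hx⟩), rfl⟩
  have h3 : rk K a (B ∪ Y) ≤ rk K a ((B ∪ Y).erase y) := Submodule.finrank_mono h2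
  have hyB : y ∉ B := fun hyB => (Finset.disjoint_left.1 hBY hyB) hy
  have h4 : (B ∪ Y).erase y = B ∪ Y.erase y := by
    ext x
    simp only [Finset.mem_erase, Finset.mem_union]
    constructor
    · rintro ⟨h1, h2 | h2⟩
      · exact Or.inl h2
      · exact Or.inr ⟨h1, h2⟩
    · rintro (h2 | ⟨h1, h2⟩)
      · exact ⟨fun h => hyB (h ▸ h2), Or.inl h2⟩
      · exact ⟨h1, Or.inr h2⟩
  rw [h4, h] at h3
  have h5 := rk_add (K := K) a B (Y.erase y)
  rw [Finset.card_erase_of_mem hy] at h5
  have := Finset.card_pos.2 ⟨y, hy⟩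
  omega

theorem exists_basis (a : ι → V) (B : Finset ι) :
    ∃ F ⊆ B, F.card ≤ rk K a B ∧ ∀ b ∈ B, a b ∈ Submodule.span K (a '' (F : Set ι)) := by
  obtain ⟨F, hF, hmax⟩ := Finset.exists_max_image
    (B.powerset.filter (fun F => F.card ≤ rk K a F)) Finset.card
    ⟨∅, by simp⟩
  rw [Finset.mem_filter, Finset.mem_powerset] at hF
  refine ⟨F, hF.1, hF.2.trans ((rk_isRank a).mono _ _ hF.1), fun b hb => ?_⟩
  by_contra hne
  have hbF : b ∉ F := fun h => hne (Submodule.subset_span ⟨b, h, rfl⟩)
  have h1 : rk K a F < rk K a (insert b F) := by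
    apply Submodule.finrank_lt_finrank_of_lt
    refine lt_of_le_of_ne (Submodule.span_mono (Set.image_mono (by simp))) fun h => hne ?_
    rw [h]
    exact Submodule.subset_span ⟨b, by simp, rfl⟩
  have h2 := hmax (insert b F) (by
    rw [Finset.mem_filter, Finset.mem_powerset]
    refine ⟨Finset.insert_subset hb hF.1, ?_⟩
    rw [Finset.card_insert_of_notMem hbF]
    omega)
  rw [Finset.card_insert_of_notMem hbF] at h2
  omega

end rank

section group

variable {M : Type} [AddCommGroup M] [DecidableEq M]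

/-- A relation with coefficients in `{-1,0,1}`. -/
def Rel (ξ : M →₀ ℤ) : Prop :=
  (∀ x, ξ x = -1 ∨ ξ x = 0 ∨ ξ x = 1) ∧ ξ.sum (fun x n => n • x) = 0

/-- `A` is reduced to `D` by means of `k` classes. -/
def Red (k : ℕ) (A D : Finset M) : Prop :=
  D ⊆ A ∧ ∃ c : M → Fin k, ∀ (i : Fin k) (ξ : M →₀ ℤ), Rel ξ →
    (∀ x ∈ ξ.support, x ∈ A ∧ (x ∈ D ∨ c x = i)) → ξ.support ⊆ D

theorem Red.trans {k : ℕ} {A B D : Finset M} (h1 : Red k A B) (h2 : Red k B D) : Red k A D := by
  obtain ⟨hBA, c1, h1⟩ := h1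
  obtain ⟨hDB, c2, h2⟩ := h2
  refine ⟨hDB.trans hBA, fun x => if x ∈ B then c2 x else c1 x, fun i ξ hξ hs => ?_⟩
  have hB := h1 i ξ hξ (by
    intro x hx
    obtain ⟨hxA, hx'⟩ := hs x hx
    refine ⟨hxA, ?_⟩
    by_cases hxB : x ∈ B
    · exact Or.inl hxB
    · right
      rcases hx' with hx' | hx'
      · exact absurd (hDB hx') hxB
      · beta_reduce at hx'
        rwa [if_neg hxB] at hx')
  refine h2 i ξ hξ fun x hx => ⟨hB hx, ?_⟩
  rcases (hs x hx).2 with hx' | hx'
  · exact Or.inl hx'
  · beta_reduce at hx'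
    rw [if_pos (hB hx)] at hx'
    exact Or.inr hx'

theorem Red.refl {k : ℕ} (hk : 0 < k) (A : Finset M) : Red k A A :=
  ⟨Finset.Subset.refl _, fun _ => ⟨0, hk⟩, fun _ _ _ hs x hx => (hs x hx).1⟩

theorem exists_quot {p : ℕ} (S P : AddSubgroup M) (hSP : ∀ x ∈ S, p • x ∈ P) :
    ∃ (V : Type) (_ : AddCommGroup V) (_ : Module (ZMod p) V) (q : M → V),
      (∀ x ∈ S, q x = 0 ↔ x ∈ P) ∧ (∀ x ∈ S, ∀ y ∈ S, q (x + y) = q x + q y) ∧
      (∀ (n : ℤ), ∀ x ∈ S, q (n • x) = n • q x) := by
  classical
  let Q := S ⧸ (P.addSubgroupOf S)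
  letI : Module (ZMod p) Q := AddCommGroup.zmodModule (by
    intro x
    obtain ⟨y, rfl⟩ := QuotientAddGroup.mk_surjective x
    rw [← QuotientAddGroup.mk_nsmul, QuotientAddGroup.eq_zero_iff]
    exact hSP y.1 y.2)
  let q : M → Q := fun x => if h : x ∈ S then ((⟨x, h⟩ : S) : Q) else 0
  have hq : ∀ (x : M) (h : x ∈ S), q x = ((⟨x, h⟩ : S) : Q) := fun x h => dif_pos h
  refine ⟨Q, inferInstance, inferInstance, q, ?_, ?_, ?_⟩
  · intro x hx
    rw [hq x hx, QuotientAddGroup.eq_zero_iff]
    rfl
  · intro x hx y hy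
    rw [hq x hx, hq y hy, hq _ (S.add_mem hx hy), ← QuotientAddGroup.mk_add]
    rfl
  · intro n x hx
    rw [hq x hx, hq _ (S.zsmul_mem hx n), ← QuotientAddGroup.mk_zsmul]
    rfl

/-- One step: relations are pushed to the quotient `S / P`, a vector space over `ZMod p`. -/
theorem step {p : ℕ} (hp : p.Prime) {k : ℕ} (hk : 0 < k) (S P : AddSubgroup M)
    (hSP : ∀ x ∈ S, p • x ∈ P) (A : Finset M) (hA : ∀ x ∈ A, x ∈ S) :
    ∃ B, Red k A B ∧ ∃ F : Finset M, k * F.card ≤ A.card ∧
      ∀ b ∈ B, b ∈ AddSubgroup.closure (F : Set M) ⊔ P := by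
  classical
  haveI : Fact p.Prime := ⟨hp⟩
  obtain ⟨V, _, _, q, hq0, hqadd, hqz⟩ := exists_quot S P hSP
  have hqsum : ∀ (X : Finset M) (g : M → M), (∀ x ∈ X, g x ∈ S) →
      q (∑ x ∈ X, g x) = ∑ x ∈ X, q (g x) := by
    intro X g hg
    induction X using Finset.induction_on with
    | empty =>
      rw [Finset.sum_empty, Finset.sum_empty, hq0 0 S.zero_mem]
      exact P.zero_mem
    | insert x X hx ih =>
      rw [Finset.sum_insert hx, Finset.sum_insert hx, hqadd _ (hg x (by simp)), ih]
      · intro y hy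
        exact hg y (by simp [hy])
      · exact S.sum_mem fun y hy => hg y (by simp [hy])
  obtain ⟨B, hBA, hBc, c, hc⟩ := split (K := ZMod p) q hk A
  obtain ⟨F, hFB, hFc, hF⟩ := exists_basis (K := ZMod p) q B
  refine ⟨B, ⟨hBA, c, ?_⟩, F, ?_, ?_⟩
  · intro i ξ hξ hs
    have h1 : ∑ x ∈ B ∪ (A \ B).filter (fun x => c x = i), ((ξ x : ℤ) : ZMod p) • q x = 0 := by
      have h2 : ∑ x ∈ B ∪ (A \ B).filter (fun x => c x = i), ξ x • x = 0 := by
        have h3 := hξ.2
        rw [Finsupp.sum] at h3
        rw [← h3]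
        symm
        apply Finset.sum_subset
        · intro x hx
          obtain ⟨hxA, hx'⟩ := hs x hx
          simp only [Finset.mem_union, Finset.mem_filter, Finset.mem_sdiff]
          by_cases hxB : x ∈ B
          · exact Or.inl hxB
          · exact Or.inr ⟨⟨hxA, hxB⟩, hx'.resolve_left hxB⟩
        · intro x _ hx
          rw [Finsupp.notMem_support_iff] at hx
          rw [hx, zero_smul]
      have hS : ∀ x ∈ B ∪ (A \ B).filter (fun x => c x = i), x ∈ S := by
        intro x hx
        simp only [Finset.mem_union, Finset.mem_filter, Finset.mem_sdiff] at hx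
        rcases hx with hx | hx
        · exact hA x (hBA hx)
        · exact hA x hx.1.1
      have h4 := hqsum _ (fun x => ξ x • x) (fun x hx => S.zsmul_mem (hS x hx) _)
      rw [h2, (hq0 0 S.zero_mem).2 P.zero_mem] at h4
      rw [h4]
      apply Finset.sum_congr rfl
      intro x hx
      rw [hqz _ x (hS x hx), Int.cast_smul_eq_zsmul]
    have h5 := rel_zero q B _ (by
      rw [Finset.disjoint_left]
      intro x hx hx'
      exact (Finset.mem_sdiff.1 (Finset.mem_filter.1 hx').1).2 hx) (hc i) _ h1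
    intro x hx
    by_contra hxB
    obtain ⟨hxA, hx'⟩ := hs x hx
    have h6 := h5 x (Finset.mem_filter.2 ⟨Finset.mem_sdiff.2 ⟨hxA, hxB⟩, hx'.resolve_left hxB⟩)
    rw [Finsupp.mem_support_iff] at hx
    rcases hξ.1 x with h | h | h
    · rw [h] at h6
      simp at h6
    · exact hx h
    · rw [h] at h6
      simp at h6
  · calc k * F.card ≤ k * rk (ZMod p) q B := Nat.mul_le_mul_left _ hFc
      _ ≤ B.card := hBc
      _ ≤ A.card := Finset.card_le_card hBA
  · intro b hb
    have hbS : b ∈ S := hA b (hBA hb)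
    have hFS : ∀ x ∈ F, x ∈ S := fun x hx => hA x (hBA (hFB hx))
    have key : ∀ v ∈ Submodule.span (ZMod p) (q '' (F : Set M)),
        ∃ y ∈ AddSubgroup.closure (F : Set M), y ∈ S ∧ q y = v := by
      intro v hv
      induction hv using Submodule.span_induction with
      | mem v hv =>
        obtain ⟨x, hx, rfl⟩ := hv
        exact ⟨x, AddSubgroup.subset_closure hx, hFS x hx, rfl⟩
      | zero => exact ⟨0, AddSubgroup.zero_mem _, S.zero_mem, (hq0 0 S.zero_mem).2 P.zero_mem⟩
      | add v w _ _ ihv ihw =>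
        obtain ⟨y, hy, hyS, rfl⟩ := ihv
        obtain ⟨z, hz, hzS, rfl⟩ := ihw
        exact ⟨y + z, AddSubgroup.add_mem _ hy hz, S.add_mem hyS hzS, hqadd y hyS z hzS⟩
      | smul r v _ ihv =>
        obtain ⟨y, hy, hyS, rfl⟩ := ihv
        refine ⟨(r.val : ℤ) • y, AddSubgroup.zsmul_mem _ hy _, S.zsmul_mem hyS _, ?_⟩
        rw [hqz _ y hyS, ← Int.cast_smul_eq_zsmul (ZMod p)]
        congr 1
        push_cast
        exact ZMod.natCast_zmod_val r
    obtain ⟨y, hy, hyS, hqy⟩ := key (q b) (hF b hb)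
    have h1 : b - y ∈ P := by
      rw [← hq0 _ (S.sub_mem hbS hyS), sub_eq_add_neg, hqadd b hbS _ (S.neg_mem hyS)]
      have := hqz (-1) y hyS
      rw [neg_one_smul, neg_one_smul] at this
      rw [this, hqy]
      exact add_neg_cancel _
    have h2 : b = y + (b - y) := by abel
    rw [h2]
    exact AddSubgroup.add_mem _ (AddSubgroup.mem_sup_left hy) (AddSubgroup.mem_sup_right h1)

theorem chain {k : ℕ} (hk : 0 < k) (ps : List ℕ) :
    (∀ p ∈ ps, p.Prime) → ∀ (N : AddSubgroup M), (∀ x ∈ N, ps.prod • x = 0) →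
    ∀ (F A : Finset M), (∀ a ∈ A, a ∈ AddSubgroup.closure (F : Set M) ⊔ N) →
    ∃ D, Red k A D ∧ ∃ E : Finset M, k * E.card ≤ ps.length * A.card ∧
      ∀ d ∈ D, d ∈ AddSubgroup.closure ((F ∪ E : Finset M) : Set M) := by
  induction ps with
  | nil =>
    intro _ N hN F A hA
    refine ⟨A, Red.refl hk A, ∅, by simp, fun d hd => ?_⟩
    have hN0 : N = ⊥ := by
      rw [AddSubgroup.eq_bot_iff_forall]
      intro x hx
      have := hN x hx
      rwa [List.prod_nil, one_smul] at this
    have := hA d hd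
    rw [hN0, sup_bot_eq] at this
    rwa [Finset.union_empty]
  | cons p ps ih =>
    intro hps N hN F A hA
    have hp : p.Prime := hps p (by simp)
    let N' : AddSubgroup M := N.map (zsmulAddGroupHom (p : ℤ))
    have hN' : ∀ x ∈ N', ps.prod • x = 0 := by
      rintro _ ⟨y, hy, rfl⟩
      have := hN y hy
      rw [List.prod_cons, mul_comm, mul_smul] at this
      simpa using this
    have hpN : ∀ x ∈ N, p • x ∈ N' := fun x hx => ⟨x, hx, by simp⟩
    obtain ⟨B, hB, F', hF', hBF⟩ := step hp hk (AddSubgroup.closure (F : Set M) ⊔ N)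
      (AddSubgroup.closure (F : Set M) ⊔ N') (by
        intro x hx
        obtain ⟨y, hy, z, hz, rfl⟩ := AddSubgroup.mem_sup.1 hx
        rw [smul_add]
        exact AddSubgroup.add_mem _ (AddSubgroup.mem_sup_left (AddSubgroup.nsmul_mem _ hy _))
          (AddSubgroup.mem_sup_right (hpN z hz))) A hA
    obtain ⟨D, hD, E, hE, hDE⟩ := ih (fun q hq => hps q (by simp [hq])) N' hN' (F ∪ F') B (by
      intro b hb
      have := hBF b hb
      rw [Finset.coe_union, AddSubgroup.closure_union, sup_comm (AddSubgroup.closure (F : Set M)),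
        sup_assoc]
      exact this)
    refine ⟨D, hB.trans hD, F' ∪ E, ?_, ?_⟩
    · rw [List.length_cons]
      have h1 : (F' ∪ E).card ≤ F'.card + E.card := Finset.card_union_le _ _
      have h2 : B.card ≤ A.card := Finset.card_le_card hB.1
      calc k * (F' ∪ E).card ≤ k * (F'.card + E.card) := Nat.mul_le_mul_left _ h1
        _ = k * F'.card + k * E.card := by ring
        _ ≤ A.card + ps.length * B.card := Nat.add_le_add hF' hE
        _ ≤ A.card + ps.length * A.card := Nat.add_le_add_left (Nat.mul_le_mul_left _ h2) _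
        _ = _ := by ring
    · intro d hd
      have := hDE d hd
      rwa [Finset.union_assoc] at this

/-- The classes of the colouring `c` of `A` are quasi-independent. -/
def QCol (k : ℕ) (A : Finset M) (c : M → Fin k) : Prop :=
  ∀ (i : Fin k) (ξ : M →₀ ℤ), Rel ξ → (∀ x ∈ ξ.support, x ∈ A ∧ c x = i) → ξ = 0

theorem Red.qcol {k : ℕ} {A D : Finset M} (h : Red k A D) (hD : ∃ c, QCol k D c) :
    ∃ c, QCol k A c := by
  obtain ⟨hDA, c1, h1⟩ := h
  obtain ⟨c2, h2⟩ := hD
  refine ⟨fun x => if x ∈ D then c2 x else c1 x, fun i ξ hξ hs => ?_⟩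
  have hD := h1 i ξ hξ (by
    intro x hx
    obtain ⟨hxA, hx'⟩ := hs x hx
    refine ⟨hxA, ?_⟩
    by_cases hxD : x ∈ D
    · exact Or.inl hxD
    · beta_reduce at hx'
      rw [if_neg hxD] at hx'
      exact Or.inr hx')
  refine h2 i ξ hξ fun x hx => ⟨hD hx, ?_⟩
  have := (hs x hx).2
  beta_reduce at this
  rwa [if_pos (hD hx)] at this

theorem small_qcol {k : ℕ} (hk : 0 < k) (A : Finset M) (h0 : (0 : M) ∉ A) (hA : A.card ≤ k) :
    ∃ c, QCol k A c := by
  have e := A.equivFin
  have h1 : ∀ (x : M) (hx : x ∈ A), ((e ⟨x, hx⟩ : Fin A.card) : ℕ) < k :=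
    fun x hx => lt_of_lt_of_le (e _).2 hA
  refine ⟨fun x => if h : x ∈ A then ⟨(e ⟨x, h⟩ : Fin A.card), h1 x h⟩ else ⟨0, hk⟩, ?_⟩
  intro i ξ hξ hs
  by_contra hne
  obtain ⟨x, hx⟩ := Finsupp.support_nonempty_iff.2 hne
  have hsupp : ξ.support = {x} := by
    refine Finset.eq_singleton_iff_unique_mem.2 ⟨hx, fun y hy => ?_⟩
    obtain ⟨hxA, hxc⟩ := hs x hx
    obtain ⟨hyA, hyc⟩ := hs y hy
    beta_reduce at hxc hyc
    rw [dif_pos hxA] at hxc
    rw [dif_pos hyA, ← hxc] at hyc
    have h2 : (e ⟨y, hyA⟩ : ℕ) = e ⟨x, hxA⟩ := by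
      simpa using congrArg Fin.val hyc
    have h3 := e.injective (Fin.ext h2)
    exact congrArg Subtype.val h3
  have h4 := hξ.2
  rw [Finsupp.sum, hsupp, Finset.sum_singleton] at h4
  have hx0 : x ≠ 0 := fun h => h0 (h ▸ (hs x hx).1)
  rw [Finsupp.mem_support_iff] at hx
  rcases hξ.1 x with h | h | h
  · rw [h, neg_one_smul, neg_eq_zero] at h4
    exact hx0 h4
  · exact hx h
  · rw [h, one_smul] at h4
    exact hx0 h4

/-- Main combinatorial statement: if no large finite subset of `Λ` is generated by few elements,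
then all finite subsets of `Λ` are unions of `k` quasi-independent sets. -/
theorem exists_qcol {n : ℕ} (hn : n ≠ 0) (hM : ∀ x : M, n • x = 0) (Λ : Set M) (h0 : (0 : M) ∉ Λ)
    {k : ℕ} (hk : 0 < k)
    (hΛ : ∀ A : Finset M, (A : Set M) ⊆ Λ → k < A.card → ∀ E : Finset M,
      (∀ a ∈ A, a ∈ AddSubgroup.closure (E : Set M)) →
        n.primeFactorsList.length * A.card < k * E.card) :
    ∀ A : Finset M, (A : Set M) ⊆ Λ → ∃ c, QCol k A c := by
  intro A
  induction A using Finset.strongInduction with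
  | H A ih =>
    intro hA
    by_cases hcard : A.card ≤ k
    · exact small_qcol hk A (fun h => h0 (hA h)) hcard
    push Not at hcard
    obtain ⟨D, hD, E, hE, hDE⟩ := chain hk n.primeFactorsList
      (fun p hp => Nat.prime_of_mem_primeFactorsList hp) (⊤ : AddSubgroup M) (by
        intro x _
        rw [Nat.prod_primeFactorsList hn]
        exact hM x) ∅ A (by intro a _; rw [sup_top_eq]; trivial)
    refine hD.qcol (ih D ?_ ?_)
    · refine Finset.ssubset_iff_subset_ne.2 ⟨hD.1, ?_⟩
      rintro rfl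
      rw [Finset.empty_union] at hDE
      have := hΛ D hA hcard E hDE
      omega
    · exact fun x hx => hA (hD.1 hx)

end group

end Pool.Agent.L7h52.Sidon
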