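import Mathlib
import Pool.Agent.L7h52.Sidon.Char

/-!
# Riesz products over quasi-independent sets
-/

set_option autoImplicit false
set_option linter.unusedSectionVars false

namespace Pool.Agent.L7h52.Sidon

open MeasureTheory Finset

variable {n : ℕ} [NeZero n]

/-- coefficients of a factor of the Riesz product -/
noncomputable def wt (α β : ℝ) (u : ℂ) (j : ℤ) : ℂ :=
  if j = 0 then (α : ℂ) else if j = 1 then (β : ℂ) * u / 2 else (β : ℂ) * (starRingEnd ℂ) u / 2

theorem factor_eq (α β : ℝ) (u : ℂ) (l : ℕ →₀ ZMod n) (t : ℕ → ZMod n) :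
    ((α + β * (u * char l t).re : ℝ) : ℂ) =
      ∑ j ∈ ({-1, 0, 1} : Finset ℤ), wt α β u j * char (j • l) t := by
  have h : (((u * char l t).re : ℝ) : ℂ) = (u * char l t + (starRingEnd ℂ) (u * char l t)) / 2 := by
    rw [Complex.add_conj]
    push_cast
    ring
  rw [Complex.ofReal_add, Complex.ofReal_mul, h, Finset.sum_insert (by decide),
    Finset.sum_insert (by decide), Finset.sum_singleton]
  have e1 : wt α β u (-1) = (β : ℂ) * (starRingEnd ℂ) u / 2 := by simp [wt]
  have e2 : wt α β u 0 = (α : ℂ) := by simp [wt]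
  have e3 : wt α β u 1 = (β : ℂ) * u / 2 := by simp [wt]
  rw [e1, e2, e3, neg_one_smul, zero_smul, one_smul, char_zero, char_neg, map_mul]
  ring

theorem riesz (s : Finset (ℕ →₀ ZMod n))
    (hs : QuasiIndependent (s : Set (ℕ →₀ ZMod n))) (α β : (ℕ →₀ ZMod n) → ℝ)
    (u : (ℕ →₀ ZMod n) → ℂ) :
    ∫ t, ∏ l ∈ s, (α l + β l * (u l * char l t).re) ∂(haar n) = ∏ l ∈ s, α l := by
  classical
  have key : ∀ t : ℕ → ZMod n, ((∏ l ∈ s, (α l + β l * (u l * char l t).re) : ℝ) : ℂ) =
      ∑ x ∈ Fintype.piFinset (fun _ : s => ({-1, 0, 1} : Finset ℤ)),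
        (∏ l : s, wt (α l) (β l) (u l) (x l)) * char (∑ l : s, x l • (l : ℕ →₀ ZMod n)) t := by
    intro t
    rw [Complex.ofReal_prod, ← Finset.prod_coe_sort]
    simp only [factor_eq]
    rw [Finset.prod_univ_sum]
    refine Finset.sum_congr rfl fun x _ => ?_
    rw [Finset.prod_mul_distrib, char_sum]
  have h1 : ((∫ t, ∏ l ∈ s, (α l + β l * (u l * char l t).re) ∂(haar n) : ℝ) : ℂ) =
      ∑ x ∈ Fintype.piFinset (fun _ : s => ({-1, 0, 1} : Finset ℤ)),
        (∏ l : s, wt (α l) (β l) (u l) (x l)) *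
          ∫ t, char (∑ l : s, x l • (l : ℕ →₀ ZMod n)) t ∂(haar n) := by
    rw [← integral_complex_ofReal]
    simp only [key]
    rw [integral_finsetSum]
    · simp only [integral_const_mul]
    · intro x _
      exact (cont_integrable (continuous_char _)).const_mul _
  have h2 : ∀ x ∈ Fintype.piFinset (fun _ : s => ({-1, 0, 1} : Finset ℤ)), x ≠ 0 →
      (∏ l : s, wt (α l) (β l) (u l) (x l)) *
          ∫ t, char (∑ l : s, x l • (l : ℕ →₀ ZMod n)) t ∂(haar n) = 0 := by
    intro x hx hx0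
    rw [integral_char_ne, mul_zero]
    intro h0
    apply hx0
    have h3 := hs s (fun l => if h : l ∈ s then x ⟨l, h⟩ else 0) (fun _ h => h) (by
      intro l hl
      rw [dif_pos hl]
      have := (Fintype.mem_piFinset.1 hx) ⟨l, hl⟩
      simpa using this) (by
      rw [← Finset.sum_coe_sort]
      rw [← h0]
      refine Finset.sum_congr rfl fun l _ => ?_
      rw [dif_pos l.2])
    ext l
    have h4 := h3 l.1 l.2
    rw [dif_pos l.2] at h4
    exact h4
  rw [Finset.sum_eq_single 0 h2] at h1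
  · have h5 : ∀ l : s, wt (α l) (β l) (u l) ((0 : s → ℤ) l) = (α l : ℂ) := fun l => by
      simp [wt]
    simp only [h5] at h1
    have h6 : (∑ l : s, (0 : s → ℤ) l • (l : ℕ →₀ ZMod n)) = 0 := by simp
    rw [h6, integral_char_zero, mul_one] at h1
    rw [Finset.prod_coe_sort s (fun l => ((α l : ℝ) : ℂ)), ← Complex.ofReal_prod] at h1
    exact_mod_cast h1
  · intro h
    exfalso
    apply h
    rw [Fintype.mem_piFinset]
    intro l
    simp

theorem mgf_bound (s : Finset (ℕ →₀ ZMod n))
    (hs : QuasiIndependent (s : Set (ℕ →₀ ZMod n))) (a : (ℕ →₀ ZMod n) → ℂ) (r : ℝ) :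
    ∫ t, Real.exp (r * (∑ l ∈ s, a l * char l t).re) ∂(haar n) ≤
      Real.exp (r ^ 2 * (∑ l ∈ s, ‖a l‖ ^ 2) / 2) := by
  classical
  let u : (ℕ →₀ ZMod n) → ℂ := fun l => Complex.exp (Complex.arg (a l) * Complex.I)
  have hu : ∀ l, a l = (‖a l‖ : ℂ) * u l := fun l => (Complex.norm_mul_exp_arg_mul_I (a l)).symm
  have hun : ∀ l, ‖u l‖ = 1 := fun l => Complex.norm_exp_ofReal_mul_I _
  have hτ : ∀ l t, |(u l * char l t).re| ≤ 1 := by
    intro l t
    refine (Complex.abs_re_le_norm _).trans ?_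
    rw [norm_mul, hun, norm_char, one_mul]
  have hcr : ∀ l, Continuous fun t : ℕ → ZMod n => (u l * char l t).re := fun l =>
    Complex.continuous_re.comp (continuous_const.mul (continuous_char l))
  have h1 : ∀ t : ℕ → ZMod n, Real.exp (r * (∑ l ∈ s, a l * char l t).re) ≤
      ∏ l ∈ s, (Real.cosh (r * ‖a l‖) + Real.sinh (r * ‖a l‖) * (u l * char l t).re) := by
    intro t
    have h2 : r * (∑ l ∈ s, a l * char l t).re = ∑ l ∈ s, (u l * char l t).re * (r * ‖a l‖) := by
      rw [Complex.re_sum, Finset.mul_sum]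
      refine Finset.sum_congr rfl fun l _ => ?_
      conv_lhs => rw [hu l]
      rw [mul_assoc, Complex.re_ofReal_mul]
      ring
    rw [h2, Real.exp_sum]
    refine Finset.prod_le_prod (fun l _ => (Real.exp_pos _).le) fun l _ => ?_
    have := Real.exp_mul_le_cosh_add_mul_sinh (hτ l t) (r * ‖a l‖)
    rwa [mul_comm (u l * char l t).re (Real.sinh _)] at this
  calc ∫ t, Real.exp (r * (∑ l ∈ s, a l * char l t).re) ∂(haar n)
      ≤ ∫ t, ∏ l ∈ s, (Real.cosh (r * ‖a l‖) + Real.sinh (r * ‖a l‖) * (u l * char l t).re)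
          ∂(haar n) := by
        refine integral_mono ?_ ?_ h1
        · apply cont_integrable
          refine Real.continuous_exp.comp (continuous_const.mul (Complex.continuous_re.comp ?_))
          exact continuous_finsetSum _ fun l _ => continuous_const.mul (continuous_char l)
        · apply cont_integrable
          exact continuous_finsetProd _ fun l _ => continuous_const.add (continuous_const.mul (hcr l))
    _ = ∏ l ∈ s, Real.cosh (r * ‖a l‖) := riesz s hs _ _ _
    _ ≤ ∏ l ∈ s, Real.exp ((r * ‖a l‖) ^ 2 / 2) :=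
        Finset.prod_le_prod (fun l _ => (Real.cosh_pos _).le) fun l _ => Real.cosh_le_exp_half_sq _
    _ = _ := by
        rw [← Real.exp_sum]
        congr 1
        rw [Finset.mul_sum, Finset.sum_div]
        exact Finset.sum_congr rfl fun l _ => by ring

end Pool.Agent.L7h52.Sidon
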