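import Mathlib
import Pool.Agent.L7h52.Sidon.Riesz

/-!
# The `ψ₂` norm of sums over (finite unions of) quasi-independent sets
-/

set_option autoImplicit false
set_option linter.unusedSectionVars false

namespace Pool.Agent.L7h52.Sidon

open MeasureTheory Finset

variable {n : ℕ} [NeZero n]

theorem fact_le (k : ℕ) : ((2 * k).factorial : ℝ) ≤ k.factorial * (2 * k : ℝ) ^ k := by
  have h1 := Nat.factorial_mul_ascFactorial k k
  have h2 := Nat.ascFactorial_le_pow_add k k
  have h3 : (2 * k).factorial ≤ k.factorial * (2 * k) ^ k := by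
    rw [two_mul, ← h1]
    exact Nat.mul_le_mul_left _ h2
  exact_mod_cast h3

/-- From the moment generating function to even moments. -/
theorem moment {g : (ℕ → ZMod n) → ℝ} (hg : Continuous g) {σ : ℝ} (hσ : 0 < σ)
    (h : ∀ r : ℝ, ∫ t, Real.exp (r * g t) ∂(haar n) ≤ Real.exp (r ^ 2 * σ ^ 2 / 2)) (k : ℕ) :
    ∫ t, (g t ^ 2) ^ k / k.factorial ∂(haar n) ≤ (3 * σ ^ 2) ^ k := by
  rcases Nat.eq_zero_or_pos k with rfl | hk
  · simp
  have hk' : (0 : ℝ) < k := by exact_mod_cast hk
  set r : ℝ := Real.sqrt (2 * k) / σ with hr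
  have hr2 : r ^ 2 = 2 * k / σ ^ 2 := by
    rw [hr, div_pow, Real.sq_sqrt (by positivity)]
  have hrpos : 0 < r ^ 2 := by rw [hr2]; positivity
  have hpt : ∀ t, (g t ^ 2) ^ k / k.factorial ≤
      ((2 * k).factorial / k.factorial / (r ^ 2) ^ k) * Real.cosh (r * g t) := by
    intro t
    have h1 : (r * g t) ^ (2 * k) / ((2 * k).factorial : ℝ) ≤ Real.cosh (r * g t) :=
      le_hasSum (Real.hasSum_cosh (r * g t)) k (fun j _ => by
        have : 0 ≤ (r * g t) ^ (2 * j) := by rw [pow_mul]; positivity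
        positivity)
    have h2 : (r * g t) ^ (2 * k) = (r ^ 2) ^ k * (g t ^ 2) ^ k := by
      rw [pow_mul, mul_pow, mul_pow]
    have hf : (0 : ℝ) < ((2 * k).factorial : ℝ) := by exact_mod_cast Nat.factorial_pos _
    have hf' : (0 : ℝ) < (k.factorial : ℝ) := by exact_mod_cast Nat.factorial_pos _
    have hrk : 0 < (r ^ 2) ^ k := by positivity
    calc (g t ^ 2) ^ k / k.factorial
        = ((2 * k).factorial / k.factorial / (r ^ 2) ^ k) *
            ((r * g t) ^ (2 * k) / ((2 * k).factorial : ℝ)) := by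
          rw [h2]
          field_simp
      _ ≤ _ := by
          apply mul_le_mul_of_nonneg_left h1
          positivity
  have hcont : Continuous fun t => Real.cosh (r * g t) :=
    Real.continuous_cosh.comp (continuous_const.mul hg)
  have hcosh : ∫ t, Real.cosh (r * g t) ∂(haar n) ≤ Real.exp (r ^ 2 * σ ^ 2 / 2) := by
    have h1 := h r
    have h2 := h (-r)
    rw [neg_sq] at h2
    have h3 : ∫ t, Real.cosh (r * g t) ∂(haar n) =
        (∫ t, Real.exp (r * g t) ∂(haar n) + ∫ t, Real.exp (-r * g t) ∂(haar n)) / 2 := by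
      rw [← integral_add, ← integral_div]
      · congr 1
        ext t
        rw [Real.cosh_eq, neg_mul]
      · exact cont_integrable (Real.continuous_exp.comp (continuous_const.mul hg))
      · exact cont_integrable (Real.continuous_exp.comp (continuous_const.mul hg))
    rw [h3]
    linarith
  have hf' : (0 : ℝ) < (k.factorial : ℝ) := by exact_mod_cast Nat.factorial_pos _
  calc ∫ t, (g t ^ 2) ^ k / k.factorial ∂(haar n)
      ≤ ∫ t, ((2 * k).factorial / k.factorial / (r ^ 2) ^ k) * Real.cosh (r * g t) ∂(haar n) := by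
        refine integral_mono (cont_integrable ?_) ((cont_integrable hcont).const_mul _) hpt
        exact ((hg.pow 2).pow k).div_const _
    _ = ((2 * k).factorial / k.factorial / (r ^ 2) ^ k) * ∫ t, Real.cosh (r * g t) ∂(haar n) :=
        integral_const_mul _ _
    _ ≤ ((2 * k : ℝ) ^ k / (r ^ 2) ^ k) * Real.exp (r ^ 2 * σ ^ 2 / 2) := by
        apply mul_le_mul _ hcosh
        · exact integral_nonneg fun t => (Real.cosh_pos _).le
        · positivity
        · apply div_le_div_of_nonneg_right _ (by positivity)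
          rw [div_le_iff₀ hf', mul_comm ((2 * (k : ℝ)) ^ k)]
          exact fact_le k
    _ = (Real.exp 1 * σ ^ 2) ^ k := by
        rw [hr2, ← div_pow, mul_pow]
        have h1 : (2 * (k : ℝ)) / (2 * k / σ ^ 2) = σ ^ 2 := by
          field_simp
        have h2 : 2 * (k : ℝ) / σ ^ 2 * σ ^ 2 / 2 = (k : ℝ) * 1 := by
          field_simp
        rw [h1, h2, ← Real.exp_nat_mul, mul_comm]
    _ ≤ (3 * σ ^ 2) ^ k := by
        apply pow_le_pow_left₀ (by positivity)
        apply mul_le_mul_of_nonneg_right _ (by positivity)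
        exact Real.exp_one_lt_three.le

theorem exp_sq {g : (ℕ → ZMod n) → ℝ} (hg : Continuous g) {σ : ℝ} (hσ : 0 < σ)
    (h : ∀ r : ℝ, ∫ t, Real.exp (r * g t) ∂(haar n) ≤ Real.exp (r ^ 2 * σ ^ 2 / 2))
    {b : ℝ} (hb : 0 ≤ b) (hbσ : b * (6 * σ ^ 2) ≤ 1) :
    ∫⁻ t, ENNReal.ofReal (Real.exp (b * g t ^ 2)) ∂(haar n) ≤ 2 := by
  have h1 : ∀ t, ENNReal.ofReal (Real.exp (b * g t ^ 2)) =
      ∑' k : ℕ, ENNReal.ofReal (b ^ k * ((g t ^ 2) ^ k / k.factorial)) := by
    intro t
    rw [Real.exp_eq_exp_ℝ, NormedSpace.exp_eq_tsum_div]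
    rw [ENNReal.ofReal_tsum_of_nonneg]
    · congr 1
      ext k
      rw [mul_pow, mul_div_assoc]
    · intro k
      positivity
    · exact Real.summable_pow_div_factorial _
  simp only [h1]
  rw [lintegral_tsum]
  · calc ∑' k : ℕ, ∫⁻ t, ENNReal.ofReal (b ^ k * ((g t ^ 2) ^ k / k.factorial)) ∂(haar n)
        ≤ ∑' k : ℕ, ENNReal.ofReal ((1 / 2 : ℝ) ^ k) := by
          refine ENNReal.tsum_le_tsum fun k => ?_
          rw [← ofReal_integral_eq_lintegral_ofReal]
          · apply ENNReal.ofReal_le_ofReal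
            rw [integral_const_mul]
            calc b ^ k * ∫ t, (g t ^ 2) ^ k / k.factorial ∂(haar n) ≤ b ^ k * (3 * σ ^ 2) ^ k :=
                  mul_le_mul_of_nonneg_left (moment hg hσ h k) (by positivity)
              _ = (b * (3 * σ ^ 2)) ^ k := (mul_pow _ _ _).symm
              _ ≤ (1 / 2 : ℝ) ^ k := by
                  apply pow_le_pow_left₀ (by positivity)
                  linarith
          · apply cont_integrable
            exact continuous_const.mul (((hg.pow 2).pow k).div_const _)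
          · exact Filter.Eventually.of_forall fun t => by positivity
      _ = ENNReal.ofReal (∑' k : ℕ, (1 / 2 : ℝ) ^ k) := by
          rw [ENNReal.ofReal_tsum_of_nonneg]
          · intro k; positivity
          · exact summable_geometric_two
      _ = 2 := by
          rw [tsum_geometric_two]
          norm_num
  · intro k
    apply Measurable.aemeasurable
    apply ENNReal.measurable_ofReal.comp
    exact (continuous_const.mul (((hg.pow 2).pow k).div_const _)).measurable

/-- Bound for a single quasi-independent finite set. -/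
theorem qi_bound (s : Finset (ℕ →₀ ZMod n))
    (hs : QuasiIndependent (s : Set (ℕ →₀ ZMod n))) (a : (ℕ →₀ ZMod n) → ℂ) {σ : ℝ} (hσ : 0 < σ)
    (hσa : ∑ l ∈ s, ‖a l‖ ^ 2 ≤ σ ^ 2) {b : ℝ} (hb : 0 ≤ b) (hbσ : b * (12 * σ ^ 2) ≤ 1) :
    ∫⁻ t, ENNReal.ofReal (Real.exp (b * ‖∑ l ∈ s, a l * char l t‖ ^ 2)) ∂(haar n) ≤ 2 := by
  have hc : ∀ a : (ℕ →₀ ZMod n) → ℂ, Continuous fun t : ℕ → ZMod n => ∑ l ∈ s, a l * char l t :=
    fun a => continuous_finsetSum _ fun l _ => continuous_const.mul (continuous_char l)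
  have hre : ∀ a : (ℕ →₀ ZMod n) → ℂ, ∑ l ∈ s, ‖a l‖ ^ 2 ≤ σ ^ 2 →
      ∫⁻ t, ENNReal.ofReal (Real.exp (2 * b * (∑ l ∈ s, a l * char l t).re ^ 2)) ∂(haar n) ≤ 2 := by
    intro a ha
    refine exp_sq (Complex.continuous_re.comp (hc a)) hσ ?_ (by positivity) (by linarith)
    intro r
    refine (mgf_bound s hs a r).trans ?_
    apply Real.exp_le_exp.2
    have : 0 ≤ r ^ 2 := sq_nonneg r
    nlinarith
  have h1 := hre a hσa
  have h2 := hre (fun l => -Complex.I * a l) (by simpa using hσa)
  have h3 : ∀ t : ℕ → ZMod n, (∑ l ∈ s, -Complex.I * a l * char l t).re =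
      (∑ l ∈ s, a l * char l t).im := by
    intro t
    have : ∑ l ∈ s, -Complex.I * a l * char l t = -Complex.I * ∑ l ∈ s, a l * char l t := by
      rw [Finset.mul_sum]
      exact Finset.sum_congr rfl fun l _ => mul_assoc _ _ _
    rw [this]
    simp
  simp only [h3] at h2
  have h4 : ∀ t : ℕ → ZMod n, ENNReal.ofReal (Real.exp (b * ‖∑ l ∈ s, a l * char l t‖ ^ 2)) ≤
      (1 / 2) * ENNReal.ofReal (Real.exp (2 * b * (∑ l ∈ s, a l * char l t).re ^ 2)) +
      (1 / 2) * ENNReal.ofReal (Real.exp (2 * b * (∑ l ∈ s, a l * char l t).im ^ 2)) := by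
    intro t
    set z := ∑ l ∈ s, a l * char l t
    have h5 : Real.exp (b * ‖z‖ ^ 2) ≤
        (1 / 2) * Real.exp (2 * b * z.re ^ 2) + (1 / 2) * Real.exp (2 * b * z.im ^ 2) := by
      have h6 : b * ‖z‖ ^ 2 = b * z.re ^ 2 + b * z.im ^ 2 := by
        rw [← Complex.normSq_eq_norm_sq, Complex.normSq_apply]
        ring
      rw [h6, Real.exp_add]
      have h7 : Real.exp (2 * b * z.re ^ 2) = Real.exp (b * z.re ^ 2) ^ 2 := by
        rw [← Real.exp_nat_mul]; congr 1; push_cast; ring
      have h8 : Real.exp (2 * b * z.im ^ 2) = Real.exp (b * z.im ^ 2) ^ 2 := by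
        rw [← Real.exp_nat_mul]; congr 1; push_cast; ring
      rw [h7, h8]
      nlinarith [sq_nonneg (Real.exp (b * z.re ^ 2) - Real.exp (b * z.im ^ 2))]
    refine (ENNReal.ofReal_le_ofReal h5).trans ?_
    rw [ENNReal.ofReal_add (by positivity) (by positivity), ENNReal.ofReal_mul (by norm_num),
      ENNReal.ofReal_mul (by norm_num)]
    have h9 : ENNReal.ofReal (1 / 2) = 1 / 2 := by
      rw [ENNReal.ofReal_div_of_pos (by norm_num)]
      norm_num
    rw [h9]
  calc ∫⁻ t, ENNReal.ofReal (Real.exp (b * ‖∑ l ∈ s, a l * char l t‖ ^ 2)) ∂(haar n)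
      ≤ ∫⁻ t, ((1 / 2) * ENNReal.ofReal (Real.exp (2 * b * (∑ l ∈ s, a l * char l t).re ^ 2)) +
      (1 / 2) * ENNReal.ofReal (Real.exp (2 * b * (∑ l ∈ s, a l * char l t).im ^ 2))) ∂(haar n) :=
        lintegral_mono h4
    _ = (1 / 2) * ∫⁻ t, ENNReal.ofReal (Real.exp (2 * b * (∑ l ∈ s, a l * char l t).re ^ 2))
          ∂(haar n) +
        (1 / 2) * ∫⁻ t, ENNReal.ofReal (Real.exp (2 * b * (∑ l ∈ s, a l * char l t).im ^ 2))
          ∂(haar n) := by
        have m1 : Measurable fun t : ℕ → ZMod n =>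
            ENNReal.ofReal (Real.exp (2 * b * (∑ l ∈ s, a l * char l t).re ^ 2)) :=
          ENNReal.measurable_ofReal.comp (Real.continuous_exp.comp
            (continuous_const.mul ((Complex.continuous_re.comp (hc a)).pow 2))).measurable
        have m2 : Measurable fun t : ℕ → ZMod n =>
            ENNReal.ofReal (Real.exp (2 * b * (∑ l ∈ s, a l * char l t).im ^ 2)) :=
          ENNReal.measurable_ofReal.comp (Real.continuous_exp.comp
            (continuous_const.mul ((Complex.continuous_im.comp (hc a)).pow 2))).measurable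
        rw [lintegral_add_left (m1.const_mul _), lintegral_const_mul _ m1, lintegral_const_mul _ m2]
    _ ≤ (1 / 2) * 2 + (1 / 2) * 2 := add_le_add (mul_le_mul_right h1 _) (mul_le_mul_right h2 _)
    _ = 2 := by
        rw [one_div, ENNReal.inv_mul_cancel (by norm_num) (by norm_num)]
        norm_num

end Pool.Agent.L7h52.Sidon
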