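import Mathlib
import Pool.Agent.L7h52.Sidon.Psi
import Pool.Agent.L7h52.Sidon.Comb

/-!
# Subgaussian sets in the dual of `(ℤ/nℤ)^ℕ` are the finite unions of quasi-independent sets
-/

set_option autoImplicit false
set_option linter.unusedSectionVars false

namespace Pool.Agent.L7h52.Sidon

open MeasureTheory Finset

variable {n : ℕ} [NeZero n]

theorem union_bound {N : ℕ} (hN : 0 < N) (Q : Fin N → Set (ℕ →₀ ZMod n))
    (hQ : ∀ i, QuasiIndependent (Q i)) (s : Finset (ℕ →₀ ZMod n))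
    (hs : (s : Set (ℕ →₀ ZMod n)) ⊆ ⋃ i, Q i) (a : (ℕ →₀ ZMod n) → ℂ) {σ : ℝ} (hσ : 0 < σ)
    (hσa : ∑ l ∈ s, ‖a l‖ ^ 2 ≤ σ ^ 2) :
    ∫⁻ t, ENNReal.ofReal (Real.exp (‖∑ l ∈ s, a l * char l t‖ ^ 2 / (4 * N * σ) ^ 2)) ∂(haar n) ≤
      2 := by
  classical
  have hN' : (0 : ℝ) < N := by exact_mod_cast hN
  have hidx : ∀ l : ℕ →₀ ZMod n, ∃ i : Fin N, l ∈ s → l ∈ Q i := by
    intro l
    by_cases hl : l ∈ s
    · obtain ⟨i, hi⟩ := Set.mem_iUnion.1 (hs hl)
      exact ⟨i, fun _ => hi⟩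
    · exact ⟨⟨0, hN⟩, fun h => absurd h hl⟩
  choose idx hidx using hidx
  have hf : ∀ t : ℕ → ZMod n, ∑ l ∈ s, a l * char l t =
      ∑ i : Fin N, ∑ l ∈ s.filter (fun l => idx l = i), a l * char l t := fun t =>
    (Finset.sum_fiberwise s idx _).symm
  have hi : ∀ i : Fin N, ∫⁻ t, ENNReal.ofReal (Real.exp ((1 / (16 * σ ^ 2)) *
      ‖∑ l ∈ s.filter (fun l => idx l = i), a l * char l t‖ ^ 2)) ∂(haar n) ≤ 2 := by
    intro i
    refine qi_bound _ ?_ a hσ ?_ (by positivity) ?_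
    · intro s' ξ hs' 
      refine hQ i s' ξ (fun l hl => ?_)
      have h1 := Finset.mem_filter.1 (Finset.mem_coe.1 (hs' hl))
      have h2 := hidx l h1.1
      rwa [h1.2] at h2
    · refine (Finset.sum_le_sum_of_subset_of_nonneg (Finset.filter_subset _ _) ?_).trans hσa
      intro l _ _
      positivity
    · rw [div_mul_eq_mul_div, one_mul, div_le_one (by positivity)]
      nlinarith [sq_nonneg σ]
  have hpt : ∀ t : ℕ → ZMod n,
      ENNReal.ofReal (Real.exp (‖∑ l ∈ s, a l * char l t‖ ^ 2 / (4 * N * σ) ^ 2)) ≤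
      ∑ i : Fin N, ENNReal.ofReal (1 / N) * ENNReal.ofReal (Real.exp ((1 / (16 * σ ^ 2)) *
      ‖∑ l ∈ s.filter (fun l => idx l = i), a l * char l t‖ ^ 2)) := by
    intro t
    set F : Fin N → ℂ := fun i => ∑ l ∈ s.filter (fun l => idx l = i), a l * char l t with hF
    have h1 : ‖∑ l ∈ s, a l * char l t‖ ^ 2 ≤ N * ∑ i, ‖F i‖ ^ 2 := by
      rw [hf t]
      calc ‖∑ i, F i‖ ^ 2 ≤ (∑ i, ‖F i‖) ^ 2 :=
            pow_le_pow_left₀ (norm_nonneg _) (norm_sum_le _ _) 2
        _ ≤ (Finset.univ : Finset (Fin N)).card * ∑ i, ‖F i‖ ^ 2 := sq_sum_le_card_mul_sum_sq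
        _ = _ := by rw [Finset.card_univ, Fintype.card_fin]
    have h2 : ‖∑ l ∈ s, a l * char l t‖ ^ 2 / (4 * N * σ) ^ 2 ≤
        ∑ i, (1 / (N : ℝ)) • ((1 / (16 * σ ^ 2)) * ‖F i‖ ^ 2) := by
      calc ‖∑ l ∈ s, a l * char l t‖ ^ 2 / (4 * N * σ) ^ 2
          ≤ (N * ∑ i, ‖F i‖ ^ 2) / (4 * N * σ) ^ 2 :=
            div_le_div_of_nonneg_right h1 (by positivity)
        _ = (1 / (N : ℝ)) * ((1 / (16 * σ ^ 2)) * ∑ i, ‖F i‖ ^ 2) := by
            field_simp
            norm_num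
        _ = _ := by
            rw [Finset.mul_sum, Finset.mul_sum]
            rfl
    have h3 : Real.exp (∑ i, (1 / (N : ℝ)) • ((1 / (16 * σ ^ 2)) * ‖F i‖ ^ 2)) ≤
        ∑ i, (1 / (N : ℝ)) • Real.exp ((1 / (16 * σ ^ 2)) * ‖F i‖ ^ 2) := by
      refine convexOn_exp.map_sum_le (fun i _ => by positivity) ?_ (fun i _ => Set.mem_univ _)
      rw [Finset.sum_const, Finset.card_univ, Fintype.card_fin, nsmul_eq_mul]
      field_simp
    refine (ENNReal.ofReal_le_ofReal ((Real.exp_le_exp.2 h2).trans h3)).trans ?_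
    rw [ENNReal.ofReal_sum_of_nonneg (fun i _ => by positivity)]
    refine Finset.sum_le_sum fun i _ => ?_
    rw [smul_eq_mul, ENNReal.ofReal_mul (by positivity)]
  have hm : ∀ i : Fin N, Measurable fun t : ℕ → ZMod n =>
      ENNReal.ofReal (Real.exp ((1 / (16 * σ ^ 2)) *
      ‖∑ l ∈ s.filter (fun l => idx l = i), a l * char l t‖ ^ 2)) := by
    intro i
    apply ENNReal.measurable_ofReal.comp
    apply Continuous.measurable
    refine Real.continuous_exp.comp (continuous_const.mul ((continuous_norm.comp ?_).pow 2))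
    exact continuous_finsetSum _ fun l _ => continuous_const.mul (continuous_char l)
  calc _ ≤ ∫⁻ t, ∑ i : Fin N, ENNReal.ofReal (1 / N) *
        ENNReal.ofReal (Real.exp ((1 / (16 * σ ^ 2)) *
        ‖∑ l ∈ s.filter (fun l => idx l = i), a l * char l t‖ ^ 2)) ∂(haar n) := lintegral_mono hpt
    _ = ∑ i : Fin N, ENNReal.ofReal (1 / N) * ∫⁻ t,
        ENNReal.ofReal (Real.exp ((1 / (16 * σ ^ 2)) *
        ‖∑ l ∈ s.filter (fun l => idx l = i), a l * char l t‖ ^ 2)) ∂(haar n) := by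
        rw [lintegral_finsetSum _ fun i _ => (hm i).const_mul _]
        exact Finset.sum_congr rfl fun i _ => lintegral_const_mul _ (hm i)
    _ ≤ ∑ _i : Fin N, ENNReal.ofReal (1 / N) * 2 :=
        Finset.sum_le_sum fun i _ => mul_le_mul_right (hi i) _
    _ = 2 := by
        rw [Finset.sum_const, Finset.card_univ, Fintype.card_fin, nsmul_eq_mul, ← mul_assoc]
        have : (N : ENNReal) * ENNReal.ofReal (1 / N) = 1 := by
          rw [← ENNReal.ofReal_natCast, ← ENNReal.ofReal_mul (by positivity),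
            mul_one_div_cancel hN'.ne', ENNReal.ofReal_one]
        rw [this, one_mul]

theorem subgaussian_of_union {N : ℕ} (Q : Fin N → Set (ℕ →₀ ZMod n))
    (hQ : ∀ i, QuasiIndependent (Q i)) : Subgaussian (⋃ i, Q i) := by
  classical
  refine ⟨4 * N, fun s a hs => ?_⟩
  have hS : 0 ≤ ∑ l ∈ s, ‖a l‖ ^ 2 := Finset.sum_nonneg fun l _ => by positivity
  set S := ∑ l ∈ s, ‖a l‖ ^ 2 with hSdef
  have hbdd : BddBelow {c : ℝ | 0 < c ∧ ∫⁻ t, ENNReal.ofReal
      (Real.exp (‖∑ l ∈ s, a l * char l t‖ ^ 2 / c ^ 2)) ∂(haar n) ≤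
        ENNReal.ofReal (Real.exp 1)} := ⟨0, fun c hc => hc.1.le⟩
  rcases hS.eq_or_lt with h0 | hpos
  · rw [← h0, Real.sqrt_zero, mul_zero]
    have hz : ∀ l ∈ s, a l = 0 := by
      intro l hl
      have := (Finset.sum_eq_zero_iff_of_nonneg (fun l _ => by positivity)).1 h0.symm l hl
      exact norm_eq_zero.1 (pow_eq_zero_iff (two_ne_zero) |>.1 this)
    apply le_of_forall_pos_le_add
    intro ε hε
    rw [zero_add]
    apply csInf_le hbdd
    refine ⟨hε, ?_⟩
    have : ∀ t : ℕ → ZMod n, ∑ l ∈ s, a l * char l t = 0 := fun t =>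
      Finset.sum_eq_zero fun l hl => by rw [hz l hl, zero_mul]
    simp only [this]
    simp
  · have hN : 0 < N := by
      by_contra hN
      push Not at hN
      interval_cases N
      have : s = ∅ := by
        rw [Finset.eq_empty_iff_forall_notMem]
        intro l hl
        obtain ⟨i, _⟩ := Set.mem_iUnion.1 (hs hl)
        exact i.elim0
      rw [hSdef, this, Finset.sum_empty] at hpos
      exact lt_irrefl _ hpos
    have hσ : 0 < Real.sqrt S := Real.sqrt_pos.2 hpos
    have hN' : (0 : ℝ) < N := by exact_mod_cast hN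
    apply csInf_le hbdd
    refine ⟨by positivity, ?_⟩
    refine (union_bound hN Q hQ s hs a hσ (by rw [Real.sq_sqrt hS])).trans ?_
    rw [← ENNReal.ofReal_ofNat]
    apply ENNReal.ofReal_le_ofReal
    have := Real.add_one_le_exp (1 : ℝ)
    norm_num at this ⊢
    linarith

/-- A large finite subset of a subgaussian set is not generated by few elements. -/
theorem few_generators {Λ : Set (ℕ →₀ ZMod n)} {C : ℝ}
    (hC : ∀ (s : Finset (ℕ →₀ ZMod n)) (a : (ℕ →₀ ZMod n) → ℂ), (s : Set (ℕ →₀ ZMod n)) ⊆ Λ →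
      psi2 (fun t => ∑ l ∈ s, a l * char l t) ≤ C * Real.sqrt (∑ l ∈ s, ‖a l‖ ^ 2))
    (A : Finset (ℕ →₀ ZMod n)) (hA : (A : Set (ℕ →₀ ZMod n)) ⊆ Λ) (hA0 : A.Nonempty)
    (E : Finset (ℕ →₀ ZMod n))
    (hE : ∀ a ∈ A, a ∈ AddSubgroup.closure (E : Set (ℕ →₀ ZMod n))) :
    (A.card : ℝ) / (|C| + 1) ^ 2 ≤ 1 + E.card * Real.log n := by
  classical
  have hApos : (0 : ℝ) < A.card := by exact_mod_cast Finset.card_pos.2 hA0
  have hn : (0 : ℝ) < n := by exact_mod_cast Nat.pos_of_ne_zero (NeZero.ne n)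
  have h1 := hC A (fun _ => 1) hA
  simp only [one_mul, norm_one, one_pow, Finset.sum_const, nsmul_eq_mul, mul_one] at h1
  set c := (|C| + 1) * Real.sqrt A.card with hc
  have hcpos : 0 < c := by positivity
  have h2 : psi2 (fun t : ℕ → ZMod n => ∑ l ∈ A, char l t) < c := by
    refine h1.trans_lt ?_
    apply mul_lt_mul_of_pos_right _ (Real.sqrt_pos.2 hApos)
    have := le_abs_self C
    linarith
  have hne : ({c : ℝ | 0 < c ∧ ∫⁻ t, ENNReal.ofReal
      (Real.exp (‖∑ l ∈ A, char l t‖ ^ 2 / c ^ 2)) ∂(haar n) ≤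
        ENNReal.ofReal (Real.exp 1)}).Nonempty := by
    refine ⟨A.card, hApos, ?_⟩
    calc ∫⁻ t, ENNReal.ofReal (Real.exp (‖∑ l ∈ A, char l t‖ ^ 2 / (A.card : ℝ) ^ 2)) ∂(haar n)
        ≤ ∫⁻ _t, ENNReal.ofReal (Real.exp 1) ∂(haar n) := by
          refine lintegral_mono fun t => ENNReal.ofReal_le_ofReal (Real.exp_le_exp.2 ?_)
          rw [div_le_one (by positivity)]
          apply pow_le_pow_left₀ (norm_nonneg _)
          refine (norm_sum_le _ _).trans ?_
          simp [norm_char]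
      _ = _ := by rw [lintegral_const, measure_univ, mul_one]
  obtain ⟨c0, ⟨hc0, hc0'⟩, hlt⟩ := exists_lt_of_csInf_lt hne h2
  set H : Set (ℕ → ZMod n) := {t | ∀ e ∈ E, pair e t = 0} with hH
  have hHm : MeasurableSet H := by
    have : H = ⋂ e ∈ E, (pair e) ⁻¹' {0} := by
      ext t
      simp [hH]
    rw [this]
    exact Finset.measurableSet_biInter _ fun e _ =>
      ((isClosed_discrete _).preimage (continuous_pair e)).measurableSet
  have hval : ∀ t ∈ H, ∑ l ∈ A, char l t = A.card := by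
    intro t ht
    have h3 : ∀ l ∈ A, char l t = 1 := by
      intro l hl
      have h4 : AddSubgroup.closure (E : Set (ℕ →₀ ZMod n)) ≤ (pairHom t).ker := by
        rw [AddSubgroup.closure_le]
        intro e he
        exact ht e he
      have h5 : pair l t = 0 := h4 (hE l hl)
      rw [char_eq, h5, AddChar.map_zero_eq_one]
    rw [Finset.sum_congr rfl h3, Finset.sum_const, nsmul_eq_mul, mul_one]
  have h3 : ENNReal.ofReal (Real.exp (A.card / (|C| + 1) ^ 2)) * haar n H ≤
      ENNReal.ofReal (Real.exp 1) := by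
    refine le_trans ?_ hc0'
    calc ENNReal.ofReal (Real.exp (A.card / (|C| + 1) ^ 2)) * haar n H
        = ∫⁻ _t in H, ENNReal.ofReal (Real.exp (A.card / (|C| + 1) ^ 2)) ∂(haar n) := by
          rw [lintegral_const, Measure.restrict_apply_univ]
      _ ≤ ∫⁻ t in H, ENNReal.ofReal (Real.exp (‖∑ l ∈ A, char l t‖ ^ 2 / c0 ^ 2)) ∂(haar n) := by
          refine setLIntegral_mono' hHm fun t ht => ENNReal.ofReal_le_ofReal
            (Real.exp_le_exp.2 ?_)
          rw [hval t ht]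
          simp only [Complex.norm_natCast]
          rw [le_div_iff₀ (by positivity), div_mul_eq_mul_div, div_le_iff₀ (by positivity)]
          have h4 : c0 ^ 2 ≤ (|C| + 1) ^ 2 * A.card := by
            have := pow_le_pow_left₀ hc0.le hlt.le 2
            rwa [hc, mul_pow, Real.sq_sqrt hApos.le] at this
          nlinarith
      _ ≤ _ := setLIntegral_le_lintegral _ _
  have h4 := annihilator_measure E
  have h5 : ENNReal.ofReal (Real.exp (A.card / (|C| + 1) ^ 2)) ≤
      (n : ENNReal) ^ E.card * ENNReal.ofReal (Real.exp 1) := by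
    calc ENNReal.ofReal (Real.exp (A.card / (|C| + 1) ^ 2))
        = ENNReal.ofReal (Real.exp (A.card / (|C| + 1) ^ 2)) * 1 := (mul_one _).symm
      _ ≤ ENNReal.ofReal (Real.exp (A.card / (|C| + 1) ^ 2)) *
          ((n : ENNReal) ^ E.card * haar n H) := mul_le_mul_right h4 _
      _ = (n : ENNReal) ^ E.card *
          (ENNReal.ofReal (Real.exp (A.card / (|C| + 1) ^ 2)) * haar n H) := by ring
      _ ≤ _ := mul_le_mul_right h3 _
  have h6 : Real.exp (A.card / (|C| + 1) ^ 2) ≤ (n : ℝ) ^ E.card * Real.exp 1 := by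
    rw [← ENNReal.ofReal_le_ofReal_iff (by positivity), ENNReal.ofReal_mul (by positivity),
      ENNReal.ofReal_pow hn.le, ENNReal.ofReal_natCast]
    exact h5
  have h7 : (n : ℝ) ^ E.card * Real.exp 1 = Real.exp (1 + E.card * Real.log n) := by
    rw [Real.exp_add, mul_comm (E.card : ℝ), Real.exp_mul, Real.exp_log hn, Real.rpow_natCast,
      mul_comm]
  rw [h7] at h6
  exact Real.exp_le_exp.1 h6

theorem union_of_subgaussian {Λ : Set (ℕ →₀ ZMod n)} (h0 : (0 : ℕ →₀ ZMod n) ∉ Λ)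
    (hΛ : Subgaussian Λ) : ∃ (N : ℕ) (Q : Fin N → Set (ℕ →₀ ZMod n)),
      (∀ i, QuasiIndependent (Q i)) ∧ Λ = ⋃ i, Q i := by
  classical
  obtain ⟨C, hC⟩ := hΛ
  set K : ℝ := (|C| + 1) ^ 2 with hK
  have hKpos : 0 < K := by positivity
  have hlog : 0 ≤ Real.log n := Real.log_natCast_nonneg n
  set R : ℕ := n.primeFactorsList.length with hR
  obtain ⟨k, hk⟩ := exists_nat_gt (2 * K * (1 + R * Real.log n))
  have hk0 : 0 < k := by
    have : (0 : ℝ) < k := lt_of_le_of_lt (by positivity) hk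
    exact_mod_cast this
  have hk0' : (0 : ℝ) < k := by exact_mod_cast hk0
  have hcol := exists_qcol (NeZero.ne n) (M := ℕ →₀ ZMod n) (by
    intro x
    ext i
    simp) Λ h0 hk0 (by
    intro A hA hcard E hE
    by_contra hcon
    push Not at hcon
    have hA0 : A.Nonempty := Finset.card_pos.1 (by omega)
    have h1 := few_generators hC A hA hA0 E hE
    have h2 : (k : ℝ) * E.card ≤ R * A.card := by exact_mod_cast hcon
    have h3 : (k : ℝ) < A.card := by exact_mod_cast hcard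
    rw [div_le_iff₀ hKpos] at h1
    -- A.card ≤ (1 + E.card * log n) * K
    have h4 : (A.card : ℝ) * k ≤ (k + R * A.card * Real.log n) * K := by
      calc (A.card : ℝ) * k ≤ ((1 + E.card * Real.log n) * K) * k :=
            mul_le_mul_of_nonneg_right h1 hk0'.le
        _ = (k + (k * E.card) * Real.log n) * K := by ring
        _ ≤ _ := by gcongr
    have h5 : 2 * K * (1 + R * Real.log n) * A.card ≤ k * A.card := by
      apply mul_le_mul_of_nonneg_right hk.le
      positivity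
    have h6 : (k : ℝ) * K < A.card * K := mul_lt_mul_of_pos_right h3 hKpos
    nlinarith)
  have hex : ∀ s : Finset (ℕ →₀ ZMod n), ∃ c : (ℕ →₀ ZMod n) → Fin k,
      QCol k (s.filter (fun l => l ∈ Λ)) c := fun s =>
    hcol (s.filter (fun l => l ∈ Λ)) (fun l hl => (Finset.mem_filter.1 (Finset.mem_coe.1 hl)).2)
  choose c hc using hex
  obtain ⟨χ, hχ⟩ := Finset.rado_selection (β := fun _ : ℕ →₀ ZMod n => Fin k) c
  refine ⟨k, fun i => {l | l ∈ Λ ∧ χ l = i}, ?_, ?_⟩
  · intro i s ξ hs hξ hsum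
    obtain ⟨t, hst, ht⟩ := hχ s
    let ξ' : (ℕ →₀ ZMod n) →₀ ℤ := Finsupp.onFinset s (fun l => if l ∈ s then ξ l else 0) (by
      intro l hl
      by_contra h
      rw [if_neg h] at hl
      exact hl rfl)
    have hξ' : ∀ l, ξ' l = if l ∈ s then ξ l else 0 := fun l => rfl
    have h1 : ξ' = 0 := by
      refine hc t i ξ' ⟨?_, ?_⟩ ?_
      · intro l
        rw [hξ']
        split_ifs with h
        · exact hξ l h
        · exact Or.inr (Or.inl rfl)
      · rw [Finsupp.sum_of_support_subset ξ' (s := s) Finsupp.support_onFinset_subset]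
        · rw [← hsum]
          refine Finset.sum_congr rfl fun l hl => ?_
          rw [hξ', if_pos hl]
        · intro l _
          exact zero_smul _ _
      · intro l hl
        have hls : l ∈ s := Finsupp.support_onFinset_subset hl
        refine ⟨Finset.mem_filter.2 ⟨hst hls, (hs hls).1⟩, ?_⟩
        rw [← ht l hls]
        exact (hs hls).2
    intro l hl
    have h2 := hξ' l
    rw [h1, if_pos hl] at h2
    exact h2.symm
  · ext l
    simp

/-- Main theorem. -/
theorem main (n : ℕ) [NeZero n] (Λ : Set (ℕ →₀ ZMod n)) (h0 : (0 : ℕ →₀ ZMod n) ∉ Λ) :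
    Subgaussian Λ ↔ ∃ (N : ℕ) (Q : Fin N → Set (ℕ →₀ ZMod n)),
      (∀ i, QuasiIndependent (Q i)) ∧ Λ = ⋃ i, Q i := by
  constructor
  · exact union_of_subgaussian h0
  · rintro ⟨N, Q, hQ, rfl⟩
    exact subgaussian_of_union Q hQ

end Pool.Agent.L7h52.Sidon
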